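import Mathlib

namespace Pool.Agent.H54.KN

open Finset

/-- The number of two-colourings with two prescribed different values is a quarter of all. -/
theorem card_quarter {N : ℕ} (i j : Fin N) (hij : i ≠ j) :
    4 * (univ.filter fun c : Fin N → Bool => c i = true ∧ c j = false).card = 2 ^ N := by
  classical
  have key : ∀ a b : Bool, (univ.filter fun c : Fin N → Bool => c i = a ∧ c j = b).card =
      (univ.filter fun c : Fin N → Bool => c i = true ∧ c j = false).card := by
    intro a b
    refine Finset.card_bij (fun c _ => Function.update (Function.update c i true) j false) ?_ ?_ ?_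
    · intro c hc
      simp [Function.update_of_ne hij]
    · intro c hc c' hc' h
      simp only [mem_filter, mem_univ, true_and] at hc hc'
      funext k
      by_cases hk : k = j
      · subst hk; rw [hc.2, hc'.2]
      · by_cases hk' : k = i
        · subst hk'; rw [hc.1, hc'.1]
        · have := congrFun h k
          simpa [Function.update_of_ne hk, Function.update_of_ne hk'] using this
    · intro c hc
      simp only [mem_filter, mem_univ, true_and] at hc
      refine ⟨Function.update (Function.update c i a) j b, ?_, ?_⟩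
      · simp [Function.update_of_ne hij]
      · funext k
        by_cases hk : k = j
        · subst hk; simp [hc.2]
        · by_cases hk' : k = i
          · subst hk'; simp [Function.update_of_ne hk, hc.1]
          · simp [Function.update_of_ne hk, Function.update_of_ne hk']
  have htot : (univ : Finset (Fin N → Bool)).card = 2 ^ N := by simp
  have h1 : (univ : Finset (Fin N → Bool)) =
      (univ.filter fun c : Fin N → Bool => c i = true ∧ c j = true) ∪
      (univ.filter fun c : Fin N → Bool => c i = true ∧ c j = false) ∪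
      ((univ.filter fun c : Fin N → Bool => c i = false ∧ c j = true) ∪
      (univ.filter fun c : Fin N → Bool => c i = false ∧ c j = false)) := by
    ext c
    simp only [mem_univ, mem_union, mem_filter, true_and, true_iff]
    cases c i <;> cases c j <;> simp
  rw [← htot, congrArg card h1, card_union_of_disjoint, card_union_of_disjoint,
    card_union_of_disjoint, key true true, key false true, key false false]
  · ring
  · rw [disjoint_left]; intro c hc hc'; simp only [mem_filter, mem_univ, true_and] at hc hc'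
    simp [hc.2] at hc'
  · rw [disjoint_left]; intro c hc hc'; simp only [mem_filter, mem_univ, true_and] at hc hc'
    simp [hc.2] at hc'
  · rw [disjoint_left]; intro c hc hc'
    simp only [mem_union, mem_filter, mem_univ, true_and] at hc hc'
    rcases hc with hc | hc <;> rcases hc' with hc' | hc' <;> simp [hc.1] at hc'

/-- Averaging over two-colourings. -/
theorem exists_colouring {N : ℕ} (w : Fin N × Fin N → ℝ) (hw : ∀ p, 0 ≤ w p) :
    ∃ c : Fin N → Bool, ∑ p, w p ≤
      4 * ∑ p ∈ univ.filter (fun p : Fin N × Fin N => (c p.1 = true ∧ c p.2 = false) ∨ ¬ p.1 < p.2),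
        w p := by
  classical
  by_contra hcon
  rw [not_exists] at hcon
  have h1 : ∑ c : Fin N → Bool, 4 * ∑ p ∈ univ.filter
      (fun p : Fin N × Fin N => (c p.1 = true ∧ c p.2 = false) ∨ ¬ p.1 < p.2), w p <
      ∑ _c : Fin N → Bool, ∑ p, w p := Finset.sum_lt_sum_of_nonempty univ_nonempty fun c _ => not_le.1 (hcon c)
  have h2 : ∑ c : Fin N → Bool, 4 * ∑ p ∈ univ.filter
      (fun p : Fin N × Fin N => (c p.1 = true ∧ c p.2 = false) ∨ ¬ p.1 < p.2), w p =
      ∑ p, w p * (4 * ((univ.filter fun c : Fin N → Bool =>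
        (c p.1 = true ∧ c p.2 = false) ∨ ¬ p.1 < p.2).card : ℝ)) := by
    simp_rw [Finset.sum_filter, Finset.mul_sum]
    rw [Finset.sum_comm]
    refine Finset.sum_congr rfl fun p _ => ?_
    rw [← Finset.mul_sum, ← Finset.sum_filter, Finset.sum_const, nsmul_eq_mul]
    ring
  have h3 : ∑ _c : Fin N → Bool, ∑ p, w p = ∑ p, w p * (2 ^ N : ℝ) := by
    rw [Finset.sum_const, nsmul_eq_mul, ← Finset.sum_mul]
    simp [mul_comm]
  rw [h2, h3] at h1
  refine absurd h1 (not_lt.2 (Finset.sum_le_sum fun p _ => mul_le_mul_of_nonneg_left ?_ (hw p)))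
  by_cases hp : p.1 < p.2
  · have := card_quarter p.1 p.2 hp.ne
    have h4 : (univ.filter fun c : Fin N → Bool => c p.1 = true ∧ c p.2 = false).card ≤
        (univ.filter fun c : Fin N → Bool =>
          (c p.1 = true ∧ c p.2 = false) ∨ ¬ p.1 < p.2).card :=
      card_le_card fun c hc => by
        simp only [mem_filter, mem_univ, true_and] at hc ⊢
        exact Or.inl hc
    have h5 : (4 * (univ.filter fun c : Fin N → Bool => c p.1 = true ∧ c p.2 = false).card : ℝ) =
        2 ^ N := by exact_mod_cast this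
    have h6 : ((univ.filter fun c : Fin N → Bool => c p.1 = true ∧ c p.2 = false).card : ℝ) ≤
        ((univ.filter fun c : Fin N → Bool =>
          (c p.1 = true ∧ c p.2 = false) ∨ ¬ p.1 < p.2).card : ℝ) := by exact_mod_cast h4
    linarith
  · have h4 : (univ.filter fun c : Fin N → Bool =>
          (c p.1 = true ∧ c p.2 = false) ∨ ¬ p.1 < p.2) = univ := by
      ext c; simp [hp]
    rw [h4]
    simp only [card_univ, Fintype.card_pi, Fintype.card_bool, prod_const, Fintype.card_fin]
    push_cast
    have : (0 : ℝ) < 2 ^ N := by positivity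
    linarith

/-- A gadget of depth `q` with Ramsey number above `t`. -/
structure Gad (X : Type) [Fintype X] [DecidableEq X] (q t : ℕ) (M : Finset (Finset X)) : Prop where
  card : ∀ E ∈ M, E.card = 2 ^ q
  ne : M.Nonempty
  ram : ∀ c : X → Fin t, ∃ E ∈ M, ∀ x ∈ E, ∀ y ∈ E, c x = c y
  half : ∀ r ≤ q, ∀ w : X → ℝ, (∀ x, 0 ≤ w x) → ∃ A : Finset X,
    (∀ E ∈ M, (A ∩ E).card ≤ 2 ^ (q - r)) ∧ ∑ x, w x ≤ 4 ^ r * ∑ x ∈ A, w x

theorem gad_exists (t : ℕ) (ht : 0 < t) : ∀ q : ℕ, ∃ (X : Type) (_ : Fintype X) (_ : DecidableEq X)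
    (M : Finset (Finset X)), Gad X q t M := by
  classical
  intro q
  induction q with
  | zero =>
    refine ⟨Unit, inferInstance, inferInstance, {{()}}, ?_, ?_, ?_, ?_⟩
    · intro E hE; simp only [mem_singleton] at hE; subst hE; simp
    · exact ⟨_, mem_singleton_self _⟩
    · intro c; exact ⟨_, mem_singleton_self _, fun x _ y _ => rfl⟩
    · intro r hr w hw
      refine ⟨univ, fun E hE => ?_, ?_⟩
      · simp only [mem_singleton] at hE; subst hE; simp
      · have : r = 0 := by omega
        subst this; simp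
  | succ q ih =>
    obtain ⟨X, _, _, M, hM⟩ := ih
    let N := Fintype.card (Set (X → Fin t)) + 1
    let M' : Finset (Finset ((Fin N × Fin N) × X)) := univ.filter fun E' =>
      ∃ i j k : Fin N, ∃ E ∈ M, i < j ∧ j < k ∧ E' = ({(i, j), (j, k)} : Finset (Fin N × Fin N)) ×ˢ E
    have hmem : ∀ E', E' ∈ M' ↔ ∃ i j k : Fin N, ∃ E ∈ M, i < j ∧ j < k ∧
        E' = ({(i, j), (j, k)} : Finset (Fin N × Fin N)) ×ˢ E := fun E' => by
      simp [M']
    have hram : ∀ c : (Fin N × Fin N) × X → Fin t, ∃ E ∈ M', ∀ x ∈ E, ∀ y ∈ E, c x = c y := by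
      intro c
      let g : Fin N → Set (X → Fin t) := fun j => {d | ∃ k, j < k ∧ d = fun x => c ((j, k), x)}
      obtain ⟨i, j, hij, hg⟩ := Fintype.exists_ne_map_eq_of_card_lt g (by simp [N])
      wlog hlt : i < j generalizing i j
      · exact this j i hij.symm hg.symm (lt_of_le_of_ne (not_lt.1 hlt) hij.symm)
      have h1 : (fun x => c ((i, j), x)) ∈ g i := ⟨j, hlt, rfl⟩
      rw [hg] at h1
      obtain ⟨k, hk, h2⟩ := h1
      obtain ⟨E, hE, hE2⟩ := hM.ram fun x => c ((i, j), x)
      refine ⟨({(i, j), (j, k)} : Finset (Fin N × Fin N)) ×ˢ E, (hmem _).2 ⟨i, j, k, E, hE, hlt, hk, rfl⟩, ?_⟩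
      have h3 : ∀ z ∈ ({(i, j), (j, k)} : Finset (Fin N × Fin N)) ×ˢ E, c z = c ((i, j), z.2) := by
        rintro ⟨p, x⟩ hz
        simp only [mem_product, mem_insert, mem_singleton] at hz
        rcases hz.1 with rfl | rfl
        · rfl
        · exact (congrFun h2 x).symm
      intro x hx y hy
      rw [h3 x hx, h3 y hy]
      exact hE2 _ (mem_product.1 hx).2 _ (mem_product.1 hy).2
    refine ⟨(Fin N × Fin N) × X, inferInstance, inferInstance, M', ?_, ?_, hram, ?_⟩
    · intro E' hE'
      obtain ⟨i, j, k, E, hE, hij, hjk, rfl⟩ := (hmem _).1 hE'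
      rw [card_product, hM.card E hE, card_pair, pow_succ, mul_comm]
      intro h
      have := congrArg Prod.fst h
      exact hij.ne this
    · obtain ⟨E, hE, -⟩ := hram fun _ => ⟨0, ht⟩
      exact ⟨E, hE⟩
    · intro r hr w hw
      rcases Nat.eq_zero_or_pos r with rfl | hr0
      · refine ⟨univ, fun E' hE' => ?_, by simp⟩
        obtain ⟨i, j, k, E, hE, hij, hjk, rfl⟩ := (hmem _).1 hE'
        rw [univ_inter, card_product, hM.card E hE, Nat.sub_zero, pow_succ, mul_comm]
        exact Nat.mul_le_mul_left _ card_le_two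
      · obtain ⟨r, rfl⟩ : ∃ r', r = r' + 1 := ⟨r - 1, by omega⟩
        obtain ⟨c, hc⟩ := exists_colouring (fun p => ∑ x, w (p, x))
          (fun p => Finset.sum_nonneg fun x _ => hw _)
        set B := univ.filter
          (fun p : Fin N × Fin N => (c p.1 = true ∧ c p.2 = false) ∨ ¬ p.1 < p.2) with hB
        obtain ⟨A, hA1, hA2⟩ := hM.half r (by omega) (fun x => ∑ p ∈ B, w (p, x))
          (fun x => Finset.sum_nonneg fun p _ => hw _)
        refine ⟨B ×ˢ A, fun E' hE' => ?_, ?_⟩
        · obtain ⟨i, j, k, E, hE, hij, hjk, rfl⟩ := (hmem _).1 hE'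
          rw [product_inter_product, card_product]
          have h1 : (B ∩ ({(i, j), (j, k)} : Finset (Fin N × Fin N))).card ≤ 1 := by
            rw [card_le_one]
            intro a ha b hb
            simp only [hB, mem_inter, mem_filter, mem_univ, true_and, mem_insert,
              mem_singleton] at ha hb
            obtain ⟨ha1, rfl | rfl⟩ := ha <;> obtain ⟨hb1, rfl | rfl⟩ := hb
            · rfl
            · exfalso
              rcases ha1 with ha1 | ha1
              · rcases hb1 with hb1 | hb1
                · simp only at ha1 hb1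
                  rw [ha1.2] at hb1
                  simp at hb1
                · exact hb1 hjk
              · exact ha1 hij
            · exfalso
              rcases hb1 with hb1 | hb1
              · rcases ha1 with ha1 | ha1
                · simp only at ha1 hb1
                  rw [hb1.2] at ha1
                  simp at ha1
                · exact ha1 hjk
              · exact hb1 hij
            · rfl
          have h2 := hA1 E hE
          have h3 : q + 1 - (r + 1) = q - r := by omega
          rw [h3]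
          calc _ ≤ 1 * 2 ^ (q - r) := Nat.mul_le_mul h1 h2
            _ = _ := one_mul _
        · rw [Finset.sum_product, Fintype.sum_prod_type]
          calc ∑ p, ∑ x, w (p, x) ≤ 4 * ∑ p ∈ B, ∑ x, w (p, x) := hc
            _ = 4 * ∑ x, ∑ p ∈ B, w (p, x) := by rw [Finset.sum_comm]
            _ ≤ 4 * (4 ^ r * ∑ x ∈ A, ∑ p ∈ B, w (p, x)) := by linarith
            _ = 4 ^ (r + 1) * ∑ p ∈ B, ∑ x ∈ A, w (p, x) := by
              rw [Finset.sum_comm, pow_succ]; ring

/-- The gadget, placed on an interval of natural numbers starting at `s`. -/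
theorem gadget (s q t : ℕ) (ht : 0 < t) : ∃ (n : ℕ) (M : Finset (Finset ℕ)), 0 < n ∧ M.Nonempty ∧
    (∀ E ∈ M, E ⊆ Ico s (s + n) ∧ E.card = 2 ^ q) ∧
    (∀ c : ℕ → ℕ, (∀ x ∈ Ico s (s + n), c x < t) → ∃ E ∈ M, ∃ k, ∀ x ∈ E, c x = k) ∧
    (∀ r ≤ q, ∀ w : ℕ → ℝ, (∀ x, 0 ≤ w x) → ∃ A ⊆ Ico s (s + n),
      (∀ E ∈ M, (A ∩ E).card ≤ 2 ^ (q - r)) ∧
      ∑ x ∈ Ico s (s + n), w x ≤ 4 ^ r * ∑ x ∈ A, w x) := by
  classical
  obtain ⟨X, _, _, M, hM⟩ := gad_exists t ht q
  let n := Fintype.card X
  let e : X ↪ ℕ := ⟨fun x => s + (Fintype.equivFin X x : ℕ), fun x y h => by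
    have : (Fintype.equivFin X x : ℕ) = (Fintype.equivFin X y : ℕ) := by simpa using h
    exact (Fintype.equivFin X).injective (Fin.ext this)⟩
  have he : univ.map e = Ico s (s + n) := by
    ext y
    simp only [mem_map, mem_univ, true_and, mem_Ico]
    constructor
    · rintro ⟨x, rfl⟩
      have := (Fintype.equivFin X x).2
      change s ≤ s + (Fintype.equivFin X x : ℕ) ∧ s + (Fintype.equivFin X x : ℕ) < s + n
      simp only [n]; omega
    · rintro ⟨h1, h2⟩
      refine ⟨(Fintype.equivFin X).symm ⟨y - s, by simp only [n] at h2; omega⟩, ?_⟩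
      change s + (Fintype.equivFin X ((Fintype.equivFin X).symm ⟨y - s, _⟩) : ℕ) = y
      rw [Equiv.apply_symm_apply]
      simp only
      omega
  have hsub : ∀ E : Finset X, E.map e ⊆ Ico s (s + n) := fun E => by
    rw [← he]; exact map_subset_map.2 (subset_univ _)
  refine ⟨n, M.map (mapEmbedding e).toEmbedding, ?_, ?_, ?_, ?_, ?_⟩
  · obtain ⟨E, hE⟩ := hM.ne
    have : 0 < E.card := by rw [hM.card E hE]; positivity
    exact this.trans_le (card_le_univ E)
  · exact hM.ne.map
  · intro E' hE'
    obtain ⟨E, hE, rfl⟩ := mem_map.1 hE'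
    exact ⟨hsub E, by simpa using hM.card E hE⟩
  · intro c hc
    obtain ⟨E, hE, hE2⟩ := hM.ram fun x => ⟨c (e x), hc _ (hsub {x} (by simp))⟩
    have hpos : 0 < E.card := by rw [hM.card E hE]; positivity
    obtain ⟨x0, hx0⟩ := card_pos.1 hpos
    refine ⟨E.map e, mem_map.2 ⟨E, hE, rfl⟩, c (e x0), ?_⟩
    intro y hy
    obtain ⟨x, hx, rfl⟩ := mem_map.1 hy
    exact Fin.mk.inj_iff.1 (hE2 x hx x0 hx0)
  · intro r hr w hw
    obtain ⟨A, hA1, hA2⟩ := hM.half r hr (fun x => w (e x)) fun x => hw _
    refine ⟨A.map e, hsub A, ?_, ?_⟩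
    · intro E' hE'
      obtain ⟨E, hE, rfl⟩ := mem_map.1 hE'
      have : A.map e ∩ (mapEmbedding e).toEmbedding E = (A ∩ E).map e := by
        simp [map_inter]
      rw [this, card_map]
      exact hA1 E hE
    · rw [← he, sum_map, sum_map]
      exact hA2

end Pool.Agent.H54.KN
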