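import Pool.Agent.H54.KN.Defs
import Pool.Agent.H54.KN.Gadget

namespace Pool.Agent.H54.KN

open Set Filter Topology
open scoped ENNReal NNReal

/-- A system of gadgets on consecutive intervals `[s n, s (n+1))`. -/
structure IsSys (s q : ℕ → ℕ) (M : ℕ → Finset (Finset ℕ)) : Prop where
  zero : s 0 = 0
  smono : StrictMono s
  ne : ∀ n, (M n).Nonempty
  sub : ∀ n, ∀ E ∈ M n, E ⊆ Finset.Ico (s n) (s (n + 1))
  card : ∀ n, ∀ E ∈ M n, E.card = 2 ^ q n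
  qlt : ∀ n, n < q n
  big : ∀ n, (n + 1) * s n ≤ 2 ^ q n
  ram : ∀ n, ∀ c : ℕ → ℕ, (∀ x ∈ Finset.Ico (s n) (s (n + 1)), c x < s n + n + 2) →
    ∃ E ∈ M n, ∃ k, ∀ x ∈ E, c x = k
  half : ∀ n, ∀ r ≤ q n, ∀ w : ℕ → ℝ, (∀ x, 0 ≤ w x) →
    ∃ A ⊆ Finset.Ico (s n) (s (n + 1)),
      (∀ E ∈ M n, (A ∩ E).card ≤ 2 ^ (q n - r)) ∧
      ∑ x ∈ Finset.Ico (s n) (s (n + 1)), w x ≤ 4 ^ r * ∑ x ∈ A, w x

theorem sys_exists : ∃ (s q : ℕ → ℕ) (M : ℕ → Finset (Finset ℕ)), IsSys s q M := by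
  choose ν M h1 h2 h3 h4 h5 using fun p : ℕ × ℕ =>
    gadget p.2 (p.1 + 1 + (p.1 + 1) * p.2) (p.2 + p.1 + 2) (by omega)
  let s : ℕ → ℕ := fun n => Nat.rec 0 (fun n x => x + ν (n, x)) n
  have hs : ∀ n, s (n + 1) = s n + ν (n, s n) := fun n => rfl
  refine ⟨s, fun n => n + 1 + (n + 1) * s n, fun n => M (n, s n), ?_⟩
  refine ⟨rfl, strictMono_nat_of_lt_succ fun n => ?_, fun n => h2 _, ?_, ?_, ?_, ?_, ?_, ?_⟩
  · have := h1 (n, s n)
    rw [hs]; omega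
  · intro n E hE; rw [hs]; exact (h3 _ E hE).1
  · intro n E hE; exact (h3 _ E hE).2
  · intro n
    omega
  · intro n
    calc (n + 1) * s n ≤ n + 1 + (n + 1) * s n := by omega
      _ ≤ 2 ^ (n + 1 + (n + 1) * s n) := Nat.lt_two_pow_self.le
  · intro n c hc
    rw [hs] at hc
    exact h4 (n, s n) c hc
  · intro n r hr w hw
    rw [hs]
    exact h5 (n, s n) r hr w hw

section

variable {s q : ℕ → ℕ} {M : ℕ → Finset (Finset ℕ)}

/-- The block containing `x`. -/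
def blk (s : ℕ → ℕ) (x : ℕ) : ℕ := Nat.findGreatest (fun n => s n ≤ x) x

theorem IsSys.le_blk (h : IsSys s q M) (x : ℕ) : s (blk s x) ≤ x :=
  Nat.findGreatest_spec (P := fun n => s n ≤ x) (Nat.zero_le x) (by simp [h.zero])

theorem IsSys.lt_blk (h : IsSys s q M) (x : ℕ) : x < s (blk s x + 1) := by
  by_contra hcon
  have h1 : blk s x + 1 ≤ x := (h.smono.le_apply).trans (not_lt.1 hcon)
  have := Nat.le_findGreatest (P := fun n => s n ≤ x) h1 (not_lt.1 hcon)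
  change blk s x + 1 ≤ blk s x at this
  omega

theorem IsSys.blk_eq (h : IsSys s q M) {x n : ℕ} (h1 : s n ≤ x) (h2 : x < s (n + 1)) :
    blk s x = n := by
  have h3 := h.le_blk x
  have h4 := h.lt_blk x
  have h5 : n < blk s x + 1 := h.smono.lt_iff_lt.1 (h1.trans_lt h4)
  have h6 : blk s x < n + 1 := h.smono.lt_iff_lt.1 (h3.trans_lt h2)
  omega

theorem IsSys.mem_iff (h : IsSys s q M) {x n : ℕ} : x ∈ Ico (s n) (s (n + 1)) ↔ blk s x = n := by
  constructor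
  · rintro ⟨h1, h2⟩; exact h.blk_eq h1 h2
  · rintro rfl; exact ⟨h.le_blk x, h.lt_blk x⟩

theorem IsSys.le_blk_iff (h : IsSys s q M) {x n : ℕ} : n ≤ blk s x ↔ s n ≤ x := by
  constructor
  · intro h1
    exact (h.smono.monotone h1).trans (h.le_blk x)
  · intro h1
    have := h.smono.lt_iff_lt.1 (h1.trans_lt (h.lt_blk x))
    omega

/-- A submeasure living on an interval. -/
structure BlockSub (a b : ℕ) (ψ : Set ℕ → ℝ≥0∞) : Prop where
  empty : ψ ∅ = 0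
  mono : ∀ A B : Set ℕ, A ⊆ B → ψ A ≤ ψ B
  subadd : ∀ A B : Set ℕ, ψ (A ∪ B) ≤ ψ A + ψ B
  sing : ∀ x : ℕ, ψ {x} < ∞
  loc : ∀ A : Set ℕ, ψ A = ψ (A ∩ Ico a b)

/-- Supremum of block submeasures over the blocks in `S`. -/
noncomputable def supS (S : Set ℕ) (ψ : ℕ → Set ℕ → ℝ≥0∞) (A : Set ℕ) : ℝ≥0∞ :=
  ⨆ n ∈ S, ψ n A

theorem le_supS {S : Set ℕ} {ψ : ℕ → Set ℕ → ℝ≥0∞} {n : ℕ} (hn : n ∈ S) (A : Set ℕ) :
    ψ n A ≤ supS S ψ A := le_iSup₂ (f := fun n (_ : n ∈ S) => ψ n A) n hn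

theorem supS_le {S : Set ℕ} {ψ : ℕ → Set ℕ → ℝ≥0∞} {A : Set ℕ} {c : ℝ≥0∞}
    (h : ∀ n ∈ S, ψ n A ≤ c) : supS S ψ A ≤ c := iSup₂_le h

theorem IsSys.lsc (h : IsSys s q M) (S : Set ℕ) (ψ : ℕ → Set ℕ → ℝ≥0∞)
    (hψ : ∀ n, BlockSub (s n) (s (n + 1)) (ψ n)) : IsLscSubmeasure (supS S ψ) := by
  have hmono : ∀ A B : Set ℕ, A ⊆ B → supS S ψ A ≤ supS S ψ B := fun A B hAB =>
    supS_le fun n hn => ((hψ n).mono A B hAB).trans (le_supS hn B)
  refine ⟨?_, hmono, ?_, ?_, ?_⟩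
  · exact le_antisymm (supS_le fun n _ => by rw [(hψ n).empty]) zero_le
  · intro A B
    exact supS_le fun n hn => ((hψ n).subadd A B).trans
      (add_le_add (le_supS hn A) (le_supS hn B))
  · intro x
    refine lt_of_le_of_lt (supS_le (c := ψ (blk s x) {x}) fun n _ => ?_) ((hψ _).sing x)
    by_cases hn : blk s x = n
    · rw [hn]
    · have : ({x} : Set ℕ) ∩ Ico (s n) (s (n + 1)) = ∅ := by
        ext y
        simp only [mem_inter_iff, mem_singleton_iff, mem_empty_iff_false, iff_false, not_and]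
        rintro rfl hy
        exact hn (h.mem_iff.1 hy)
      rw [(hψ n).loc, this, (hψ n).empty]
      exact zero_le
  · intro A
    have h1 : Monotone fun m : ℕ => supS S ψ (A ∩ Iio m) := fun m m' hm =>
      hmono _ _ (inter_subset_inter_right _ (Iio_subset_Iio hm))
    have h2 := tendsto_atTop_iSup h1
    have h3 : ⨆ m : ℕ, supS S ψ (A ∩ Iio m) = supS S ψ A := by
      refine le_antisymm (iSup_le fun m => hmono _ _ inter_subset_left) ?_
      refine supS_le fun n hn => ?_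
      refine le_trans ?_ (le_iSup (fun m : ℕ => supS S ψ (A ∩ Iio m)) (s (n + 1)))
      refine le_trans ?_ (le_supS hn _)
      rw [(hψ n).loc A]
      exact (hψ n).mono _ _ fun x hx => ⟨hx.1, hx.2.2⟩
    rw [h3] at h2
    exact h2

theorem IsSys.mem_exh (h : IsSys s q M) (S : Set ℕ) (ψ : ℕ → Set ℕ → ℝ≥0∞)
    (hψ : ∀ n, BlockSub (s n) (s (n + 1)) (ψ n)) (A : Set ℕ) :
    A ∈ Exh (supS S ψ) ↔ ∀ ε : ℝ≥0∞, 0 < ε → ∃ n₀, ∀ n ≥ n₀, n ∈ S → ψ n A ≤ ε := by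
  unfold Exh
  rw [mem_ofPred_eq, ENNReal.tendsto_atTop_zero]
  refine forall_congr' fun ε => imp_congr_right fun hε => ?_
  constructor
  · rintro ⟨m, hm⟩
    refine ⟨m, fun n hn hnS => ?_⟩
    refine le_trans ?_ (hm m le_rfl)
    refine le_trans ?_ (le_supS hnS _)
    rw [(hψ n).loc A]
    refine (hψ n).mono _ _ fun x hx => ⟨hx.1, ?_⟩
    have h1 : m ≤ s n := hn.trans h.smono.le_apply
    simp only [mem_Iio, not_lt]
    exact h1.trans hx.2.1
  · rintro ⟨n₀, hn₀⟩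
    refine ⟨s n₀, fun m hm => supS_le fun n hn => ?_⟩
    by_cases hnn : n₀ ≤ n
    · exact ((hψ n).mono _ _ sdiff_subset).trans (hn₀ n hnn hn)
    · rw [(hψ n).loc]
      have : (A \ Iio m) ∩ Ico (s n) (s (n + 1)) = ∅ := by
        ext x
        simp only [mem_inter_iff, Set.mem_sdiff, mem_Iio, not_lt, mem_Ico, mem_empty_iff_false,
          iff_false, not_and]
        rintro ⟨-, h1⟩ - 
        have := h.smono.monotone (show n + 1 ≤ n₀ by omega)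
        omega
      rw [this, (hψ n).empty]
      exact zero_le

end

end Pool.Agent.H54.KN
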