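import Mathlib

/-! Definitions for the problem on Katetov-incomparable non-pathological ideals with the
Nikodym property. Subsets of `ω` are elements of `Set ℕ`. -/

namespace Pool.Agent.H54.KN

open Set Filter Topology
open scoped ENNReal NNReal

/-- `I` is an ideal on `ω`: a proper ideal of subsets of `ℕ` containing all finite sets. -/
structure IsIdeal (I : Set (Set ℕ)) : Prop where
  finite_mem : ∀ A : Set ℕ, A.Finite → A ∈ I
  subset_mem : ∀ A B : Set ℕ, A ⊆ B → B ∈ I → A ∈ I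
  union_mem : ∀ A B : Set ℕ, A ∈ I → B ∈ I → A ∪ B ∈ I
  univ_notMem : (univ : Set ℕ) ∉ I

/-- The Boolean algebra `I ∪ I*` of all members of `I` and their complements. -/
def idealAlgebra (I : Set (Set ℕ)) : Set (Set ℕ) := {A | A ∈ I ∨ Aᶜ ∈ I}

/-- `μ` is a bounded finitely additive real-valued measure on the algebra `𝒜`
(the values of `μ` outside `𝒜` play no role). -/
structure IsBoundedMeasureOn (𝒜 : Set (Set ℕ)) (μ : Set ℕ → ℝ) : Prop where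
  additive : ∀ A ∈ 𝒜, ∀ B ∈ 𝒜, Disjoint A B → μ (A ∪ B) = μ A + μ B
  bounded : ∃ C : ℝ, ∀ A ∈ 𝒜, |μ A| ≤ C

/-- The Nikodym property of an algebra `𝒜` of subsets of `ω`: every sequence of bounded finitely
additive real-valued measures on `𝒜` which converges to `0` on every member of `𝒜` is bounded in
the variation norm, i.e. one constant bounds all sums `∑ |μ n A|` over finite pairwise disjoint
families of members of `𝒜`. -/
def HasNikodymProperty (𝒜 : Set (Set ℕ)) : Prop :=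
  ∀ μ : ℕ → Set ℕ → ℝ, (∀ n, IsBoundedMeasureOn 𝒜 (μ n)) →
    (∀ A ∈ 𝒜, Tendsto (fun n => μ n A) atTop (𝓝 0)) →
    ∃ C : ℝ, ∀ n, ∀ s : Finset (Set ℕ), (∀ A ∈ s, A ∈ 𝒜) →
      (s : Set (Set ℕ)).PairwiseDisjoint id → ∑ A ∈ s, |μ n A| ≤ C

/-- `φ` is a lower semicontinuous submeasure on `ω`. -/
structure IsLscSubmeasure (φ : Set ℕ → ℝ≥0∞) : Prop where
  empty : φ ∅ = 0
  mono : ∀ A B : Set ℕ, A ⊆ B → φ A ≤ φ B
  subadd : ∀ A B : Set ℕ, φ (A ∪ B) ≤ φ A + φ B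
  singleton : ∀ n : ℕ, φ {n} < ∞
  lsc : ∀ A : Set ℕ, Tendsto (fun n : ℕ => φ (A ∩ Iio n)) atTop (𝓝 (φ A))

/-- `Exh φ` is the family of all `A` with `φ (A \ n) → 0`. -/
def Exh (φ : Set ℕ → ℝ≥0∞) : Set (Set ℕ) :=
  {A | Tendsto (fun n : ℕ => φ (A \ Iio n)) atTop (𝓝 0)}

/-- `φ` is non-pathological: for every `A`, `φ A` is the supremum of the values `ν A` of the
finitely additive measures `ν : 𝒫(ω) → [0,∞)` with `ν ≤ φ`. -/
def IsNonpathological (φ : Set ℕ → ℝ≥0∞) : Prop :=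
  ∀ A : Set ℕ, IsLUB {x : ℝ≥0∞ | ∃ ν : Set ℕ → ℝ≥0,
    (∀ B C : Set ℕ, Disjoint B C → ν (B ∪ C) = ν B + ν C) ∧
    (∀ B : Set ℕ, (ν B : ℝ≥0∞) ≤ φ B) ∧ x = (ν A : ℝ≥0∞)} (φ A)

/-- `I` is a non-pathological ideal: `I = Exh φ` for a non-pathological lsc submeasure `φ`. -/
def IsNonpathologicalIdeal (I : Set (Set ℕ)) : Prop :=
  ∃ φ : Set ℕ → ℝ≥0∞, IsLscSubmeasure φ ∧ IsNonpathological φ ∧ I = Exh φ

/-- `I` is totally bounded: every lsc submeasure `ψ` with `I ⊆ Exh ψ` has `ψ(ω) < ∞`. -/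
def IsTotallyBounded (I : Set (Set ℕ)) : Prop :=
  ∀ ψ : Set ℕ → ℝ≥0∞, IsLscSubmeasure ψ → I ⊆ Exh ψ → ψ univ < ∞

/-- The Katetov order `I ≤_K J`. -/
def KatetovLE (I J : Set (Set ℕ)) : Prop :=
  ∃ f : ℕ → ℕ, ∀ A ∈ I, f ⁻¹' A ∈ J

end Pool.Agent.H54.KN
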