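import Pool.Agent.H54.KN.NotTB

namespace Pool.Agent.H54.KN

open Set Filter Topology
open scoped ENNReal NNReal Classical

section

variable {s q : ℕ → ℕ} {M : ℕ → Finset (Finset ℕ)}

theorem IsSys.inv_small {A : Set ℕ} (S : Set ℕ) (h : IsSys s q M)
    (hA : ∀ n, phi (M n) A ≤ ((n + 1 : ℕ) : ℝ≥0∞)⁻¹) : A ∈ idl M S := by
  rw [h.mem_idl]
  intro ε hε
  obtain ⟨m, hm⟩ := ENNReal.exists_inv_nat_lt hε.ne'
  refine ⟨m, fun n hn _ => (hA n).trans (le_trans ?_ hm.le)⟩
  rw [ENNReal.inv_le_inv, Nat.cast_le]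
  omega

theorem IsSys.katetov (h : IsSys s q M) (S S' : Set ℕ) (hS : S.Infinite)
    (hd : (S' \ S).Infinite) : ¬ KatetovLE (idl M S) (idl M S') := by
  rintro ⟨f, hf⟩
  have hI := h.isIdeal S hS
  have hhalf : (1 / 2 : ℝ≥0∞) < 1 := by simp
  have hblock : ∀ {n : ℕ} {E : Finset ℕ}, E ∈ M n → ∀ x ∈ E, blk s x = n := fun {n E} hE x hx => by
    have := h.sub n E hE hx
    rw [Finset.mem_Ico] at this
    exact h.mem_iff.1 this
  -- large values
  let W : Set ℕ := {y | ∃ x, f x = y ∧ blk s x < blk s y}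
  have hW : W ∈ idl M S := by
    refine IsSys.inv_small S h fun n => phi_le_inv (Nat.succ_pos n) fun E hE => ?_
    rw [h.card n E hE]
    refine le_trans (Nat.mul_le_mul_left _ ?_) (h.big n)
    have h1 : (E.filter (· ∈ W)) ⊆ (Finset.range (s n)).image f := by
      intro y hy
      simp only [Finset.mem_filter] at hy
      obtain ⟨hyE, x, hx, hlt⟩ := hy
      rw [hblock hE y hyE] at hlt
      rw [Finset.mem_image]
      refine ⟨x, Finset.mem_range.2 ?_, hx⟩
      by_contra hcon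
      have := h.le_blk_iff.2 (not_lt.1 hcon)
      omega
    calc cnt E W = (E.filter (· ∈ W)).card := rfl
      _ ≤ ((Finset.range (s n)).image f).card := Finset.card_le_card h1
      _ ≤ (Finset.range (s n)).card := Finset.card_image_le
      _ = s n := Finset.card_range _
  let Z : Set ℕ := {y | blk s y ∉ S}
  have hZ : Z ∈ idl M S := by
    rw [h.mem_idl]
    intro ε _
    refine ⟨0, fun n _ hnS => ?_⟩
    have h1 : Z ∩ Ico (s n) (s (n + 1)) = ∅ := by
      ext x
      simp only [mem_inter_iff, mem_empty_iff_false, iff_false, not_and]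
      intro hx hx2
      rw [h.mem_iff] at hx2
      change blk s x ∉ S at hx
      rw [hx2] at hx
      exact hx hnS
    rw [(h.block n).loc, h1, (h.block n).empty]
    exact zero_le
  have hU := hf _ (hI.union_mem _ _ hW hZ)
  rw [h.mem_idl] at hU
  obtain ⟨n₀, hn₀⟩ := hU (1 / 2) (by simp)
  have hstep : ∀ n ∈ S' \ S, n₀ ≤ n → ∃ y < s n, ∃ E ∈ M n, ∀ x ∈ E, f x = y := by
    rintro n ⟨hnS', hnS⟩ hn
    obtain ⟨i, hi, E, hE, hEi⟩ := h.cover n (Finset.insertNone (Finset.range (s n)))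
      (fun o => Option.elim o (f ⁻¹' (W ∪ Z)) fun y => f ⁻¹' {y})
      (by rw [Finset.card_insertNone, Finset.card_range]; omega) (by
        intro x hx
        rw [h.mem_iff] at hx
        by_cases hy : f x ∈ W ∪ Z
        · exact ⟨none, by simp, hy⟩
        · refine ⟨some (f x), ?_, rfl⟩
          rw [Finset.some_mem_insertNone, Finset.mem_range]
          have h1 : ¬ blk s x < blk s (f x) := fun hlt => hy (Or.inl ⟨x, rfl, hlt⟩)
          have h2 : blk s (f x) ∈ S := by
            by_contra hcon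
            exact hy (Or.inr hcon)
          have h3 : blk s (f x) ≠ n := fun h4 => hnS (h4 ▸ h2)
          refine (h.lt_blk (f x)).trans_le (h.smono.monotone ?_)
          omega)
    cases i with
    | none =>
      obtain ⟨x, hx, hx2⟩ := phi_lt_one ((hn₀ n hn hnS').trans_lt hhalf) hE (h.Ene hE)
      exact absurd (hEi x hx) hx2
    | some y =>
      rw [Finset.some_mem_insertNone, Finset.mem_range] at hi
      exact ⟨y, hi, E, hE, fun x hx => hEi x hx⟩
  let V : Set ℕ := {y | ∃ n ∈ S' \ S, n₀ ≤ n ∧ y < s n ∧ ∃ E ∈ M n, ∀ x ∈ E, f x = y}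
  have hV : V.Infinite := by
    intro hfin
    have h1 := hf _ (hI.finite_mem V hfin)
    rw [h.mem_idl] at h1
    obtain ⟨n₁, hn₁⟩ := h1 (1 / 2) (by simp)
    obtain ⟨n, hnS, hn⟩ := hd.exists_gt (max n₀ n₁)
    obtain ⟨y, hy, E, hE, hEy⟩ := hstep n hnS ((le_max_left _ _).trans hn.le)
    obtain ⟨x, hx, hx2⟩ := phi_lt_one
      ((hn₁ n ((le_max_right _ _).trans hn.le) hnS.1).trans_lt hhalf) hE (h.Ene hE)
    exact hx2 (show f x ∈ V from ⟨n, hnS, (le_max_left _ _).trans hn.le, by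
      rw [hEy x hx]; exact hy, E, hE, fun x' hx' => by rw [hEy x hx, hEy x' hx']⟩)
  let A : Set ℕ := {y | y ∈ V ∧ ∀ z ∈ V, blk s z = blk s y → y ≤ z}
  have hAinf : A.Infinite := by
    intro hfin
    refine hV ((hfin.biUnion fun y _ => finite_Ico (s (blk s y)) (s (blk s y + 1))).subset ?_)
    intro z hz
    have hex : ∃ z', z' ∈ V ∧ blk s z' = blk s z := ⟨z, hz, rfl⟩
    have h1 := Nat.find_spec hex
    have h2 : Nat.find hex ∈ A := ⟨h1.1, fun z' hz' hb => Nat.find_min' hex ⟨hz', hb.trans h1.2⟩⟩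
    refine mem_biUnion h2 ?_
    rw [h1.2]
    exact ⟨h.le_blk z, h.lt_blk z⟩
  have hA : A ∈ idl M S := by
    refine IsSys.inv_small S h fun n => phi_le_inv (Nat.succ_pos n) fun E hE => ?_
    have h1 : cnt E A ≤ 1 := by
      unfold cnt
      rw [Finset.card_le_one]
      intro a ha b hb
      simp only [Finset.mem_filter] at ha hb
      have h2 := hblock hE a ha.1
      have h3 := hblock hE b hb.1
      exact le_antisymm (ha.2.2 b hb.2.1 (h3.trans h2.symm)) (hb.2.2 a ha.2.1 (h2.trans h3.symm))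
    rw [h.card n E hE]
    calc (n + 1) * cnt E A ≤ (n + 1) * 1 := Nat.mul_le_mul_left _ h1
      _ ≤ q n := by have := h.qlt n; omega
      _ ≤ 2 ^ q n := Nat.lt_two_pow_self.le
  have hfA := hf _ hA
  rw [h.mem_idl] at hfA
  obtain ⟨n₂, hn₂⟩ := hfA (1 / 2) (by simp)
  refine hAinf ((finite_Iio (s n₂)).subset ?_)
  intro y hy
  obtain ⟨n, hnS, hn, hys, E, hE, hEy⟩ := hy.1
  have h1 : n < n₂ := by
    by_contra hcon
    obtain ⟨x, hx, hx2⟩ := phi_lt_one
      ((hn₂ n (not_lt.1 hcon) hnS.1).trans_lt hhalf) hE (h.Ene hE)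
    refine hx2 (show f x ∈ A from ?_)
    rw [hEy x hx]
    exact hy
  exact hys.trans_le (h.smono.monotone h1.le)

end

end Pool.Agent.H54.KN
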