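import Pool.Agent.H54.KN.Kat
import Pool.Graph.R_pool_sql_team_39128cda.H.MP_07734d_lc.A

namespace Pool.Agent.H54.KN

open Set Filter Topology
open scoped ENNReal NNReal Classical

theorem le_blk' {s : ℕ → ℕ} (h0 : s 0 = 0) (x : ℕ) : s (blk s x) ≤ x :=
  Nat.findGreatest_spec (P := fun n => s n ≤ x) (Nat.zero_le x) (by simp [h0])

theorem lt_blk' {s : ℕ → ℕ} (hs : StrictMono s) (x : ℕ) : x < s (blk s x + 1) := by
  by_contra hcon
  have h1 : blk s x + 1 ≤ x := (hs.le_apply).trans (not_lt.1 hcon)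
  have := Nat.le_findGreatest (P := fun n => s n ≤ x) h1 (not_lt.1 hcon)
  change blk s x + 1 ≤ blk s x at this
  omega

theorem cnt_eq_zero {E : Finset ℕ} {A : Set ℕ} (h : ∀ x ∈ E, x ∉ A) : cnt E A = 0 := by
  unfold cnt
  rw [Finset.card_eq_zero, Finset.filter_eq_empty_iff]
  exact h

theorem cnt_le_of {E F : Finset ℕ} {A : Set ℕ} (h : ∀ x ∈ E, x ∈ A → x ∈ F) :
    cnt E A ≤ F.card := by
  unfold cnt
  refine Finset.card_le_card fun x hx => ?_
  rw [Finset.mem_filter] at hx
  exact h x hx.1 hx.2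

section

variable {s q : ℕ → ℕ} {M : ℕ → Finset (Finset ℕ)}

theorem IsSys.pideal (h : IsSys s q M) (S : Set ℕ) (hS : S.Infinite) (A : ℕ → Set ℕ)
    (hA : ∀ j, A j ∈ idl M S) : ∃ B ∈ idl M S, ∀ j, (A j \ B).Finite := by
  have hI := h.isIdeal S hS
  have hU : ∀ k : ℕ, (⋃ j ∈ Finset.range (k + 1), A j) ∈ idl M S := by
    intro k
    induction k with
    | zero => simpa using hA 0
    | succ k ih =>
      rw [Finset.range_add_one, Finset.set_biUnion_insert]
      exact hI.union_mem _ _ (hA _) ih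
  have h1 : ∀ k : ℕ, ∃ n₀, ∀ n ≥ n₀, n ∈ S →
      phi (M n) (⋃ j ∈ Finset.range (k + 1), A j) ≤ ((k + 1 : ℕ) : ℝ≥0∞)⁻¹ := fun k =>
    (h.mem_idl S _).1 (hU k) _ (by simp)
  choose N hN using h1
  obtain ⟨K, hK, hKs⟩ : ∃ K : ℕ → ℕ, (∀ k n, k ≤ n → N k ≤ n → k ≤ K n) ∧
      (∀ k n, k ≤ n → N k ≤ n → N (K n) ≤ n) :=
    ⟨fun n => Nat.findGreatest (fun k => N k ≤ n) n,
      fun k n h1 h2 => Nat.le_findGreatest (P := fun k => N k ≤ n) h1 h2,
      fun k n h1 h2 => Nat.findGreatest_spec (P := fun k => N k ≤ n) h1 h2⟩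
  refine ⟨{x | x ∈ ⋃ j ∈ Finset.range (K (blk s x) + 1), A j}, ?_, ?_⟩
  · rw [h.mem_idl]
    intro ε hε
    obtain ⟨m, hm⟩ := ENNReal.exists_inv_nat_lt hε.ne'
    refine ⟨max m (N m), fun n hn hnS => ?_⟩
    have h1 := hK m n (le_of_max_le_left hn) (le_of_max_le_right hn)
    have h2 := hKs m n (le_of_max_le_left hn) (le_of_max_le_right hn)
    rw [(h.block n).loc]
    refine le_trans ((h.block n).mono _ (⋃ j ∈ Finset.range (K n + 1), A j) ?_) ?_
    · rintro x ⟨hx, hx2⟩
      rw [h.mem_iff] at hx2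
      rw [mem_ofPred_eq] at hx
      rwa [hx2] at hx
    · refine (hN (K n) n h2 hnS).trans (le_trans ?_ hm.le)
      rw [ENNReal.inv_le_inv, Nat.cast_le]
      omega
  · intro j
    refine (finite_Iio (s (max j (N j)))).subset ?_
    rintro x ⟨hx, hx2⟩
    by_contra hcon
    rw [mem_Iio, not_lt, ← h.le_blk_iff] at hcon
    refine hx2 ?_
    rw [mem_ofPred_eq]
    have := hK j (blk s x) (le_of_max_le_left hcon) (le_of_max_le_right hcon)
    exact mem_biUnion (Finset.mem_coe.2 (Finset.mem_range.2 (by omega))) hx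

/-- Splitting a sum over an initial segment into blocks. -/
theorem IsSys.sum_blocks (h : IsSys s q M) (w : ℕ → ℝ) (m : ℕ) :
    ∑ x ∈ Finset.range (s m), w x =
      ∑ n ∈ Finset.range m, ∑ x ∈ Finset.Ico (s n) (s (n + 1)), w x := by
  induction m with
  | zero => simp [h.zero]
  | succ m ih =>
    rw [Finset.sum_range_succ, ← ih, Finset.range_eq_Ico, Finset.range_eq_Ico,
      Finset.sum_Ico_consecutive _ (Nat.zero_le _) (h.smono (Nat.lt_succ_self m)).le]

/-- From a finite set `F` beyond the block `N` and a weight extract a small subset carrying a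
fixed portion of the weight. -/
theorem IsSys.extract (h : IsSys s q M) (j N : ℕ) (hj : j ≤ N) (w : ℕ → ℝ) (hw : ∀ x, 0 ≤ w x)
    (F : Finset ℕ) (hF : ∀ x ∈ F, s N ≤ x) :
    ∃ A ⊆ F, (∀ n, ∀ E ∈ M n, 2 ^ j * cnt E (A : Set ℕ) ≤ E.card) ∧
      ∑ x ∈ F, w x ≤ 4 ^ j * ∑ x ∈ A, w x := by
  let w' : ℕ → ℝ := fun x => if x ∈ F then w x else 0
  have hw' : ∀ x, 0 ≤ w' x := fun x => by
    simp only [w']; split_ifs
    · exact hw x
    · exact le_rfl
  have h1 : ∀ n, ∃ A : Finset ℕ, A ⊆ Finset.Ico (s n) (s (n + 1)) ∧ (N ≤ n → ∀ E ∈ M n,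
      (A ∩ E).card ≤ 2 ^ (q n - j)) ∧
      ∑ x ∈ Finset.Ico (s n) (s (n + 1)), w' x ≤ 4 ^ j * ∑ x ∈ A, w' x := by
    intro n
    by_cases hn : N ≤ n
    · obtain ⟨A, hA, hA2, hA3⟩ := h.half n j (by have := h.qlt n; omega) w' hw'
      exact ⟨A, hA, fun _ => hA2, hA3⟩
    · refine ⟨∅, by simp, fun h => absurd h hn, ?_⟩
      rw [Finset.sum_empty, mul_zero]
      refine le_of_eq (Finset.sum_eq_zero fun x hx => ?_)
      simp only [w']
      rw [if_neg]
      intro hxF
      have h2 := hF x hxF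
      rw [Finset.mem_Ico] at hx
      have := h.smono.monotone (show n + 1 ≤ N by omega)
      omega
  choose B hB1 hB2 hB3 using h1
  refine ⟨F.filter fun x => x ∈ B (blk s x), Finset.filter_subset _ _, ?_, ?_⟩
  · intro n E hE
    have hEb : ∀ x ∈ E, blk s x = n := fun x hx => by
      have := h.sub n E hE hx
      rw [Finset.mem_Ico] at this
      exact h.mem_iff.1 this
    by_cases hn : N ≤ n
    · have h2 : cnt E ((F.filter fun x => x ∈ B (blk s x) : Finset ℕ) : Set ℕ) ≤ 2 ^ (q n - j) := by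
        refine le_trans ?_ (hB2 n hn E hE)
        refine cnt_le_of fun x hxE hx => ?_
        simp only [Finset.coe_filter, mem_ofPred_eq] at hx
        rw [hEb x hxE] at hx
        exact Finset.mem_inter.2 ⟨hx.2, hxE⟩
      rw [h.card n E hE]
      calc 2 ^ j * _ ≤ 2 ^ j * 2 ^ (q n - j) := Nat.mul_le_mul_left _ h2
        _ = 2 ^ q n := by
          rw [← pow_add]; congr 1
          have := h.qlt n; omega
    · have h2 : cnt E ((F.filter fun x => x ∈ B (blk s x) : Finset ℕ) : Set ℕ) = 0 := by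
        refine cnt_eq_zero fun x hx hx2 => ?_
        simp only [Finset.coe_filter, mem_ofPred_eq] at hx2
        have h3 := hF x hx2.1
        rw [← h.le_blk_iff, hEb x hx] at h3
        exact hn h3
      rw [h2]; simp
  · obtain ⟨m, hm⟩ : ∃ m, ∀ x ∈ F, x < s m := by
      refine ⟨F.sup id + 1, fun x hx => ?_⟩
      have h2 : x ≤ F.sup id := Finset.le_sup (f := id) hx
      have h3 := h.smono.le_apply (x := F.sup id + 1)
      omega
    have h2 : ∑ x ∈ F, w x = ∑ x ∈ Finset.range (s m), w' x := by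
      simp only [w']
      rw [← Finset.sum_filter]
      refine Finset.sum_congr ?_ fun _ _ => rfl
      ext x
      simp only [Finset.mem_filter, Finset.mem_range]
      exact ⟨fun hx => ⟨hm x hx, hx⟩, fun hx => hx.2⟩
    have h3 : ∑ x ∈ F.filter (fun x => x ∈ B (blk s x)), w x =
        ∑ x ∈ Finset.range (s m), if x ∈ B (blk s x) then w' x else 0 := by
      have h4 : ∀ x, (if x ∈ B (blk s x) then w' x else 0) =
          if x ∈ F ∧ x ∈ B (blk s x) then w x else 0 := fun x => by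
        simp only [w']
        by_cases h5 : x ∈ F <;> by_cases h6 : x ∈ B (blk s x) <;> simp [h5, h6]
      rw [Finset.sum_congr rfl fun x _ => h4 x, ← Finset.sum_filter]
      refine Finset.sum_congr ?_ fun _ _ => rfl
      ext x
      simp only [Finset.mem_filter, Finset.mem_range]
      exact ⟨fun hx => ⟨hm x hx.1, hx⟩, fun hx => hx.2⟩
    rw [h2, h3, h.sum_blocks, h.sum_blocks, Finset.mul_sum]
    refine Finset.sum_le_sum fun n _ => (hB3 n).trans ?_
    refine mul_le_mul_of_nonneg_left (le_of_eq ?_) (by positivity)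
    have h5 : ∑ x ∈ Finset.Ico (s n) (s (n + 1)), (if x ∈ B (blk s x) then w' x else 0) =
        ∑ x ∈ (Finset.Ico (s n) (s (n + 1))).filter (fun x => x ∈ B (blk s x)), w' x :=
      (Finset.sum_filter _ _).symm
    rw [h5]
    refine Finset.sum_congr ?_ fun _ _ => rfl
    ext x
    simp only [Finset.mem_filter]
    constructor
    · intro hx
      have h4 := hB1 n hx
      refine ⟨h4, ?_⟩
      rw [Finset.mem_Ico] at h4
      rw [h.mem_iff.1 h4]
      exact hx
    · rintro ⟨hx, hx2⟩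
      rw [Finset.mem_Ico] at hx
      rwa [h.mem_iff.1 hx] at hx2

theorem idealAlgebra_union {I : Set (Set ℕ)} (hI : IsIdeal I) :
    ∀ A ∈ idealAlgebra I, ∀ B ∈ idealAlgebra I, A ∪ B ∈ idealAlgebra I := by
  rintro A (hA | hA) B (hB | hB)
  · exact Or.inl (hI.union_mem _ _ hA hB)
  · exact Or.inr (hI.subset_mem _ _ (by rw [compl_union]; exact inter_subset_right) hB)
  · exact Or.inr (hI.subset_mem _ _ (by rw [compl_union]; exact inter_subset_left) hA)
  · exact Or.inr (hI.subset_mem _ _ (by rw [compl_union]; exact inter_subset_left) hA)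

theorem IsSys.nikodym (h : IsSys s q M) (S : Set ℕ) (hS : S.Infinite) :
    HasNikodymProperty (idealAlgebra (idl M S)) := by
  intro μ hμ hlim
  have hI := h.isIdeal S hS
  have h0 : (∅ : Set ℕ) ∈ idl M S := hI.finite_mem _ finite_empty
  have hbd : ∀ A ∈ idealAlgebra (idl M S), ∃ C : ℝ, ∀ k, |μ k A| ≤ C := by
    intro A hA
    obtain ⟨C, hC⟩ := (hlim A hA).abs.bddAbove_range
    exact ⟨C, fun k => hC ⟨k, rfl⟩⟩
  have hz : ∀ k, μ k ∅ = 0 := fun k => by
    have := (hμ k).additive ∅ (Or.inl h0) ∅ (Or.inl h0) (disjoint_empty _)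
    simp only [union_self] at this
    linarith
  have hadd : ∀ k, ∀ A ∈ idl M S, ∀ B ∈ idl M S, Disjoint A B → μ k (A ∪ B) = μ k A + μ k B :=
    fun k A hA B hB hAB => (hμ k).additive A (Or.inl hA) B (Or.inl hB) hAB
  -- Step A
  have stepA : ∀ A ∈ idl M S, ∃ C : ℝ, ∀ k, ∀ B ⊆ A, |μ k B| ≤ C := by
    intro A hA
    have hmem : ∀ B : Set ℕ, B ∩ A ∈ idl M S := fun B => hI.subset_mem _ _ inter_subset_right hA
    obtain ⟨C, hC⟩ := Pool.Agent.H.MP_07734d_lc.nik (fun k B => μ k (B ∩ A)) (by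
        intro k B T hBT
        rw [union_inter_distrib_right]
        exact hadd k _ (hmem B) _ (hmem T) (hBT.mono inter_subset_left inter_subset_left)) (by
        intro k
        obtain ⟨C, hC⟩ := (hμ k).bounded
        exact ⟨C, fun B => hC _ (Or.inl (hmem B))⟩) (by
        intro B
        exact hbd _ (Or.inl (hmem B)))
    refine ⟨C, fun k B hB => ?_⟩
    have := hC k B
    rwa [inter_eq_left.2 hB] at this
  have hfin : ∀ F : Finset ℕ, (F : Set ℕ) ∈ idl M S := fun F => hI.finite_mem _ F.finite_toSet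
  have hsum : ∀ k, ∀ F : Finset ℕ, μ k (F : Set ℕ) = ∑ x ∈ F, μ k {x} := by
    intro k F
    induction F using Finset.induction_on with
    | empty => simpa using hz k
    | insert a F ha ih =>
      rw [Finset.coe_insert, Finset.sum_insert ha, ← ih, insert_eq]
      exact hadd k _ (hI.finite_mem _ (finite_singleton a)) _ (hfin F)
        (disjoint_singleton_left.2 (by simpa using ha))
  -- Step B
  have stepB : ∃ L : ℝ, ∀ k, ∀ F : Finset ℕ, |μ k (F : Set ℕ)| ≤ L := by
    by_contra hcon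
    push Not at hcon
    have hex : ∀ j N : ℕ, j ≤ N → ∃ k, ∃ A : Finset ℕ, (∀ x ∈ A, s N ≤ x) ∧
        (∀ n, ∀ E ∈ M n, 2 ^ j * cnt E (A : Set ℕ) ≤ E.card) ∧ (j : ℝ) ≤ |μ k (A : Set ℕ)| := by
      intro j N hjN
      obtain ⟨K, hK⟩ := stepA (Iio (s N)) (hI.finite_mem _ (finite_Iio _))
      obtain ⟨k, F, hF⟩ := hcon (K + 4 ^ j * j)
      let F' := F.filter fun x => s N ≤ x
      have hF' : (4 ^ j * j : ℝ) < |μ k (F' : Set ℕ)| := by
        have h1 : μ k (F : Set ℕ) = μ k ((F.filter fun x => ¬ s N ≤ x : Finset ℕ) : Set ℕ) +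
            μ k (F' : Set ℕ) := by
          rw [hsum, hsum, hsum, add_comm]
          exact (Finset.sum_filter_add_sum_filter_not F (fun x => s N ≤ x) _).symm
        have h2 := hK k ((F.filter fun x => ¬ s N ≤ x : Finset ℕ) : Set ℕ) (by
          intro x hx
          simp only [Finset.coe_filter, mem_ofPred_eq] at hx
          exact not_le.1 hx.2)
        have h3 := abs_add_le (μ k ((F.filter fun x => ¬ s N ≤ x : Finset ℕ) : Set ℕ))
          (μ k (F' : Set ℕ))
        rw [← h1] at h3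
        linarith
      have hkey : ∀ σ : ℝ, (σ = 1 ∨ σ = -1) → (4 ^ j * j : ℝ) < σ * μ k (F' : Set ℕ) →
          ∃ A : Finset ℕ, (∀ x ∈ A, s N ≤ x) ∧
            (∀ n, ∀ E ∈ M n, 2 ^ j * cnt E (A : Set ℕ) ≤ E.card) ∧
            (j : ℝ) ≤ |μ k (A : Set ℕ)| := by
        intro σ hσ hlt
        let P := F'.filter fun x => 0 < σ * μ k {x}
        have hP : σ * μ k (F' : Set ℕ) ≤ ∑ x ∈ P, max (σ * μ k {x}) 0 := by
          rw [hsum, Finset.mul_sum,
            ← Finset.sum_filter_add_sum_filter_not F' (fun x => 0 < σ * μ k {x})]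
          have h1 : ∑ x ∈ F'.filter (fun x => ¬ 0 < σ * μ k {x}), σ * μ k {x} ≤ 0 :=
            Finset.sum_nonpos fun x hx => not_lt.1 (Finset.mem_filter.1 hx).2
          have h2 : ∑ x ∈ F'.filter (fun x => 0 < σ * μ k {x}), σ * μ k {x} ≤
              ∑ x ∈ P, max (σ * μ k {x}) 0 := Finset.sum_le_sum fun x _ => le_max_left _ _
          linarith
        obtain ⟨A, hA1, hA2, hA3⟩ := h.extract j N hjN (fun x => max (σ * μ k {x}) 0)
          (fun x => le_max_right _ _) P (fun x hx =>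
            (Finset.mem_filter.1 (Finset.mem_filter.1 hx).1).2)
        refine ⟨A, fun x hx =>
          (Finset.mem_filter.1 (Finset.mem_filter.1 (hA1 hx)).1).2, hA2, ?_⟩
        have h1 : ∑ x ∈ A, max (σ * μ k {x}) 0 = σ * μ k (A : Set ℕ) := by
          rw [hsum, Finset.mul_sum]
          exact Finset.sum_congr rfl fun x hx =>
            max_eq_left (Finset.mem_filter.1 (hA1 hx)).2.le
        rw [h1] at hA3
        have h2 : (4 ^ j * j : ℝ) < 4 ^ j * (σ * μ k (A : Set ℕ)) :=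
          hlt.trans_le (hP.trans hA3)
        have h3 : (j : ℝ) < σ * μ k (A : Set ℕ) := lt_of_mul_lt_mul_left h2 (by positivity)
        refine h3.le.trans ((le_abs_self _).trans (le_of_eq ?_))
        rw [abs_mul]
        rcases hσ with rfl | rfl <;> simp
      rcases lt_abs.1 hF' with hF' | hF'
      · exact ⟨k, hkey 1 (Or.inl rfl) (by simpa using hF')⟩
      · exact ⟨k, hkey (-1) (Or.inr rfl) (by simpa using hF')⟩
    -- the recursive choice
    have hex2 : ∀ p : ℕ × ℕ, ∃ k, ∃ A : Finset ℕ, p.1 ≤ p.2 → (∀ x ∈ A, s p.2 ≤ x) ∧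
        (∀ n, ∀ E ∈ M n, 2 ^ p.1 * cnt E (A : Set ℕ) ≤ E.card) ∧
        (p.1 : ℝ) ≤ |μ k (A : Set ℕ)| := by
      rintro ⟨j, N⟩
      by_cases hjN : j ≤ N
      · obtain ⟨k, A, hA⟩ := hex j N hjN
        exact ⟨k, A, fun _ => hA⟩
      · exact ⟨0, ∅, fun h => absurd h hjN⟩
    choose kk AA hAA using hex2
    obtain ⟨N, hN0, hN1⟩ : ∃ N : ℕ → ℕ, N 0 = 0 ∧
        ∀ j, N (j + 1) = max (N j + 1) ((AA (j, N j)).sup id + 1) :=
      ⟨fun j => Nat.rec 0 (fun j N => max (N + 1) ((AA (j, N)).sup id + 1)) j, rfl, fun _ => rfl⟩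
    have hNm : StrictMono N := strictMono_nat_of_lt_succ fun j => by
      rw [hN1]
      exact lt_of_lt_of_le (Nat.lt_succ_self _) (le_max_left _ _)
    have hNj : ∀ j, j ≤ N j := fun j => hNm.le_apply
    have hup : ∀ j, ∀ x ∈ AA (j, N j), x < s (N (j + 1)) := by
      intro j x hx
      have h2 : x ≤ (AA (j, N j)).sup id := Finset.le_sup (f := id) hx
      have h3 := h.smono.le_apply (x := N (j + 1))
      have h4 := le_max_right (N j + 1) ((AA (j, N j)).sup id + 1)
      rw [← hN1] at h4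
      omega
    let U : Set ℕ := ⋃ j, (AA (j, N j) : Set ℕ)
    have hU : U ∈ idl M S := by
      rw [h.mem_idl]
      intro ε hε
      obtain ⟨m, hm⟩ := ENNReal.exists_inv_nat_lt hε.ne'
      refine ⟨N m, fun n hn _ => ?_⟩
      have h1 : m ≤ blk N n := by
        have := hNm.lt_iff_lt.1 (hn.trans_lt (lt_blk' hNm n))
        omega
      have h2 : U ∩ Ico (s n) (s (n + 1)) ⊆ (AA (blk N n, N (blk N n)) : Set ℕ) := by
        rintro x ⟨hx, hx2⟩
        rw [h.mem_iff] at hx2
        obtain ⟨i, hi⟩ := mem_iUnion.1 hx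
        have h3 := (hAA (i, N i) (hNj i)).1 x hi
        have h4 := hup i x hi
        rw [← h.le_blk_iff, hx2] at h3
        rw [← not_le, ← h.le_blk_iff, not_le, hx2] at h4
        have h5 := le_blk' hN0 n
        have h6 := lt_blk' hNm n
        have h7 := hNm.lt_iff_lt.1 (h3.trans_lt h6)
        have h8 := hNm.lt_iff_lt.1 (h5.trans_lt h4)
        have h9 : i = blk N n := by omega
        rw [← h9]
        exact hi
      rw [(h.block n).loc]
      refine ((h.block n).mono _ _ h2).trans ?_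
      refine (phi_le_inv (k := 2 ^ blk N n) (by positivity)
        ((hAA (blk N n, N (blk N n)) (hNj _)).2.1 n)).trans (le_trans ?_ hm.le)
      rw [ENNReal.inv_le_inv, Nat.cast_le]
      exact h1.trans Nat.lt_two_pow_self.le
    obtain ⟨C, hC⟩ := stepA U hU
    obtain ⟨j, hj⟩ := exists_nat_gt C
    have h1 := (hAA (j, N j) (hNj j)).2.2
    have h2 := hC (kk (j, N j)) (AA (j, N j) : Set ℕ) (subset_iUnion (fun j => (AA (j, N j) : Set ℕ)) j)
    linarith
  obtain ⟨L, hL⟩ := stepB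
  -- Step C
  have stepC : ∃ L' : ℝ, ∀ k, ∀ A ∈ idl M S, |μ k A| ≤ L' := by
    by_contra hcon
    push Not at hcon
    have hcon' : ∀ j : ℕ, ∃ k, ∃ A ∈ idl M S, (j : ℝ) < |μ k A| := fun j => hcon j
    choose kk AA hAA hlt using hcon'
    obtain ⟨B, hB, hAB⟩ := h.pideal S hS AA hAA
    obtain ⟨C, hC⟩ := stepA B hB
    obtain ⟨j, hj⟩ := exists_nat_gt (C + L)
    have h1 := hlt j
    have h2 : μ (kk j) (AA j) = μ (kk j) (AA j ∩ B) + μ (kk j) (AA j \ B) := by
      rw [← hadd (kk j) _ (hI.subset_mem _ _ inter_subset_left (hAA j)) _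
        (hI.finite_mem _ (hAB j)) disjoint_inf_sdiff, inter_union_sdiff]
    have h3 := hC (kk j) (AA j ∩ B) inter_subset_right
    have h4 := hL (kk j) (hAB j).toFinset
    rw [Finite.coe_toFinset] at h4
    have h5 := abs_add_le (μ (kk j) (AA j ∩ B)) (μ (kk j) (AA j \ B))
    rw [← h2] at h5
    linarith
  obtain ⟨L', hL'⟩ := stepC
  have huniv : (univ : Set ℕ) ∈ idealAlgebra (idl M S) := Or.inr (by simpa using h0)
  obtain ⟨K, hK⟩ := hbd univ huniv
  have hall : ∀ k, ∀ A ∈ idealAlgebra (idl M S), |μ k A| ≤ K + L' := by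
    intro k A hA
    have hK0 : 0 ≤ K := (abs_nonneg _).trans (hK k)
    rcases hA with hA | hA
    · have := hL' k A hA
      linarith
    · have h1 := (hμ k).additive A (Or.inr hA) Aᶜ (Or.inl hA) disjoint_compl_right
      rw [union_compl_self] at h1
      have h2 := hL' k _ hA
      have h3 := hK k
      have h4 : μ k A = μ k univ - μ k Aᶜ := by linarith
      rw [h4]
      exact (abs_sub _ _).trans (add_le_add h3 h2)
  refine ⟨2 * (K + L'), fun k F hF hd => ?_⟩
  exact Pool.Agent.H.MP_07734d_lc.var_le (μ k) (idealAlgebra (idl M S)) (Or.inl h0)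
    (idealAlgebra_union hI) (hμ k).additive (hall k) id F hF hd

end

end Pool.Agent.H54.KN
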