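import Pool.Agent.H54.KN.Phi

namespace Pool.Agent.H54.KN

open Set Filter Topology
open scoped ENNReal NNReal Classical

section

variable {s q : ℕ → ℕ} {M : ℕ → Finset (Finset ℕ)}

theorem IsSys.cover (h : IsSys s q M) (n : ℕ) {ι : Type} (F : Finset ι) (B : ι → Set ℕ)
    (hcard : F.card ≤ s n + n + 2)
    (hcov : ∀ x ∈ Ico (s n) (s (n + 1)), ∃ i ∈ F, x ∈ B i) :
    ∃ i ∈ F, ∃ E ∈ M n, ∀ x ∈ E, x ∈ B i := by
  have : Nonempty ι := ⟨(hcov (s n) ⟨le_rfl, h.smono (Nat.lt_succ_self n)⟩).choose⟩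
  choose! i hi1 hi2 using hcov
  let c : ℕ → ℕ := fun x => if hx : i x ∈ F then (F.equivFin ⟨i x, hx⟩ : ℕ) else 0
  obtain ⟨E, hE, k, hk⟩ := h.ram n c (by
    intro x hx
    rw [Finset.mem_Ico] at hx
    have h1 := hi1 x hx
    simp only [c, h1, dif_pos]
    exact (F.equivFin ⟨i x, h1⟩).2.trans_le hcard)
  obtain ⟨x0, hx0⟩ := h.Ene hE
  have hIco : ∀ x ∈ E, x ∈ Ico (s n) (s (n + 1)) := fun x hx => by
    have := h.sub n E hE hx
    rwa [Finset.mem_Ico] at this
  refine ⟨i x0, hi1 _ (hIco x0 hx0), E, hE, fun x hx => ?_⟩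
  have h1 : c x = c x0 := (hk x hx).trans (hk x0 hx0).symm
  have h2 := hi1 x (hIco x hx)
  have h3 := hi1 x0 (hIco x0 hx0)
  simp only [c, h2, h3, dif_pos] at h1
  have h4 := F.equivFin.injective (Fin.ext h1)
  have h5 : i x = i x0 := congrArg Subtype.val h4
  rw [← h5]
  exact hi2 x (hIco x hx)

/-- Admissible decompositions in the definition of `psi`. -/
def Cond (N : Finset (Finset ℕ)) (a b : ℕ) (A : Set ℕ) (p : Set ℕ × Finset (Set ℕ)) : Prop :=
  phi N p.1 ≤ 1 / 2 ∧ (∀ B ∈ p.2, phi N B < 1) ∧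
    ∀ x ∈ A, x ∈ Ico a b → x ∈ p.1 ∨ ∃ B ∈ p.2, x ∈ B

/-- The block submeasures witnessing that `I_S` is not totally bounded. -/
noncomputable def psi (N : Finset (Finset ℕ)) (a b : ℕ) (A : Set ℕ) : ℝ≥0∞ :=
  ⨅ p : Set ℕ × Finset (Set ℕ), ⨅ _ : Cond N a b A p, 4 * phi N p.1 + p.2.card

theorem psi_le {N : Finset (Finset ℕ)} {a b : ℕ} {A : Set ℕ} {p : Set ℕ × Finset (Set ℕ)}
    (h : Cond N a b A p) : psi N a b A ≤ 4 * phi N p.1 + p.2.card :=
  iInf₂_le (f := fun (p : Set ℕ × Finset (Set ℕ)) (_ : Cond N a b A p) =>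
    4 * phi N p.1 + (p.2.card : ℝ≥0∞)) p h

theorem IsSys.two_le (h : IsSys s q M) {n : ℕ} {E : Finset ℕ} (hE : E ∈ M n) : 2 ≤ E.card := by
  rw [h.card n E hE]
  calc 2 = 2 ^ 1 := rfl
    _ ≤ 2 ^ q n := Nat.pow_le_pow_right (by norm_num) (by have := h.qlt n; omega)

theorem cnt_singleton (E : Finset ℕ) (x : ℕ) : cnt E {x} ≤ 1 := by
  unfold cnt
  rw [Finset.card_le_one]
  intro a ha b hb
  simp only [Finset.mem_filter, mem_singleton_iff] at ha hb
  rw [ha.2, hb.2]

theorem IsSys.psi_block (h : IsSys s q M) (n : ℕ) :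
    BlockSub (s n) (s (n + 1)) (psi (M n) (s n) (s (n + 1))) := by
  have hb := h.block n
  refine ⟨?_, ?_, ?_, ?_, ?_⟩
  · refine le_antisymm ?_ zero_le
    have := psi_le (N := M n) (a := s n) (b := s (n + 1)) (A := ∅) (p := (∅, ∅))
      ⟨by rw [hb.empty]; exact zero_le, by simp, by simp⟩
    simpa [hb.empty] using this
  · intro A B hAB
    exact le_iInf₂ fun p hp => psi_le ⟨hp.1, hp.2.1, fun x hx => hp.2.2 x (hAB hx)⟩
  · intro A B
    have key : ∀ p p', Cond (M n) (s n) (s (n + 1)) A p → Cond (M n) (s n) (s (n + 1)) B p' →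
        psi (M n) (s n) (s (n + 1)) (A ∪ B) ≤
          (4 * phi (M n) p.1 + p.2.card) + (4 * phi (M n) p'.1 + p'.2.card) := by
      rintro ⟨C, L⟩ ⟨C', L'⟩ h1 h2
      by_cases hc : phi (M n) C + phi (M n) C' ≤ 1 / 2
      · refine (psi_le (p := (C ∪ C', L ∪ L')) ⟨(hb.subadd _ _).trans hc, ?_, ?_⟩).trans ?_
        · intro D hD
          rcases Finset.mem_union.1 hD with hD | hD
          · exact h1.2.1 D hD
          · exact h2.2.1 D hD
        · intro x hx hxI
          rcases hx with hx | hx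
          · rcases h1.2.2 x hx hxI with h3 | ⟨D, hD, hxD⟩
            · exact Or.inl (Or.inl h3)
            · exact Or.inr ⟨D, Finset.mem_union_left _ hD, hxD⟩
          · rcases h2.2.2 x hx hxI with h3 | ⟨D, hD, hxD⟩
            · exact Or.inl (Or.inr h3)
            · exact Or.inr ⟨D, Finset.mem_union_right _ hD, hxD⟩
        · calc 4 * phi (M n) (C ∪ C') + ((L ∪ L').card : ℝ≥0∞)
              ≤ 4 * (phi (M n) C + phi (M n) C') + ((L.card + L'.card : ℕ) : ℝ≥0∞) := by
                gcongr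
                · exact hb.subadd _ _
                · exact Finset.card_union_le _ _
            _ = (4 * phi (M n) C + L.card) + (4 * phi (M n) C' + L'.card) := by
                push_cast; ring
      · rw [not_le] at hc
        have hhalf : (1 / 2 : ℝ≥0∞) < 1 := by simp
        refine (psi_le (p := (∅, (L ∪ L') ∪ {C, C'})) ⟨by rw [hb.empty]; exact zero_le, ?_, ?_⟩).trans ?_
        · intro D hD
          simp only [Finset.mem_union, Finset.mem_insert, Finset.mem_singleton] at hD
          rcases hD with (hD | hD) | (rfl | rfl)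
          · exact h1.2.1 D hD
          · exact h2.2.1 D hD
          · exact h1.1.trans_lt hhalf
          · exact h2.1.trans_lt hhalf
        · intro x hx hxI
          refine Or.inr ?_
          simp only [Finset.mem_union, Finset.mem_insert, Finset.mem_singleton]
          rcases hx with hx | hx
          · rcases h1.2.2 x hx hxI with h3 | ⟨D, hD, hxD⟩
            · exact ⟨C, Or.inr (Or.inl rfl), h3⟩
            · exact ⟨D, Or.inl (Or.inl hD), hxD⟩
          · rcases h2.2.2 x hx hxI with h3 | ⟨D, hD, hxD⟩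
            · exact ⟨C', Or.inr (Or.inr rfl), h3⟩
            · exact ⟨D, Or.inl (Or.inr hD), hxD⟩
        · rw [hb.empty, mul_zero, zero_add]
          have h3 : (((L ∪ L') ∪ {C, C'} : Finset (Set ℕ)).card : ℝ≥0∞) ≤
              ((L.card + L'.card + 2 : ℕ) : ℝ≥0∞) := by
            refine Nat.cast_le.2 ((Finset.card_union_le _ _).trans ?_)
            exact add_le_add (Finset.card_union_le _ _) Finset.card_le_two
          have h4 : (2 : ℝ≥0∞) ≤ 4 * (phi (M n) C + phi (M n) C') := by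
            calc (2 : ℝ≥0∞) = 4 * (1 / 2) := by
                  rw [show (4 : ℝ≥0∞) = 2 * 2 by norm_num, mul_assoc, one_div,
                    ENNReal.mul_inv_cancel (by norm_num) (by norm_num), mul_one]
              _ ≤ _ := by gcongr
          calc _ ≤ ((L.card + L'.card + 2 : ℕ) : ℝ≥0∞) := h3
            _ = L.card + L'.card + 2 := by push_cast; ring
            _ ≤ L.card + L'.card + 4 * (phi (M n) C + phi (M n) C') := by gcongr
            _ = (4 * phi (M n) C + L.card) + (4 * phi (M n) C' + L'.card) := by ring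
    refine ENNReal.le_of_forall_pos_le_add fun ε hε hfin => ?_
    have hA : psi (M n) (s n) (s (n + 1)) A < ∞ := lt_of_le_of_lt le_self_add hfin
    have hB : psi (M n) (s n) (s (n + 1)) B < ∞ := lt_of_le_of_lt le_add_self hfin
    have hε2 : (0 : ℝ≥0∞) < (ε / 2 : ℝ≥0) := by
      rw [ENNReal.coe_pos]; exact half_pos hε
    have h1 := ENNReal.lt_add_right hA.ne hε2.ne'
    have h2 := ENNReal.lt_add_right hB.ne hε2.ne'
    conv_lhs at h1 => unfold psi
    conv_lhs at h2 => unfold psi
    simp only [iInf_lt_iff] at h1 h2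
    obtain ⟨p, hp, hp2⟩ := h1
    obtain ⟨p', hp', hp2'⟩ := h2
    refine (key p p' hp hp').trans ((add_le_add hp2.le hp2'.le).trans (le_of_eq ?_))
    have : (ε : ℝ≥0∞) = (ε / 2 : ℝ≥0) + (ε / 2 : ℝ≥0) := by
      rw [← ENNReal.coe_add, add_halves]
    rw [this]; ring
  · intro x
    have h1 : phi (M n) {x} ≤ 1 / 2 := by
      have := phi_le_inv (N := M n) (A := {x}) (k := 2) (by norm_num) fun E hE => by
        have h1 := cnt_singleton E x
        have h2 := h.two_le hE
        omega
      simpa using this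
    refine (psi_le (p := ({x}, ∅)) ⟨h1, by simp, fun y hy _ => Or.inl hy⟩).trans_lt ?_
    simp only [Finset.card_empty, Nat.cast_zero, add_zero]
    exact ENNReal.mul_lt_top (by norm_num) (h1.trans_lt (by simp))
  · intro A
    unfold psi
    refine iInf_congr fun p => ?_
    have : Cond (M n) (s n) (s (n + 1)) A p ↔
        Cond (M n) (s n) (s (n + 1)) (A ∩ Ico (s n) (s (n + 1))) p := by
      unfold Cond
      refine and_congr_right fun _ => and_congr_right fun _ => ?_
      exact ⟨fun h x hx _ => h x hx.1 hx.2, fun h x hx hxI => h x ⟨hx, hxI⟩ hxI⟩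
    simp only [this]

theorem IsSys.notTB (h : IsSys s q M) (S : Set ℕ) (hS : S.Infinite) :
    ¬ IsTotallyBounded (idl M S) := by
  intro hTB
  have h1 := hTB _ (h.lsc S (fun n => psi (M n) (s n) (s (n + 1))) h.psi_block) (by
    intro A hA
    rw [h.mem_idl] at hA
    rw [h.mem_exh S _ h.psi_block]
    intro ε hε
    obtain ⟨n₀, hn₀⟩ := hA (min (1 / 2) (ε / 4)) (lt_min (by simp) (ENNReal.div_pos hε.ne' (by norm_num)))
    refine ⟨n₀, fun n hn hnS => ?_⟩
    have h2 := hn₀ n hn hnS
    refine (psi_le (p := (A, ∅)) ⟨h2.trans (min_le_left _ _), by simp,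
      fun y hy _ => Or.inl hy⟩).trans ?_
    simp only [Finset.card_empty, Nat.cast_zero, add_zero]
    calc 4 * phi (M n) A ≤ 4 * (ε / 4) := by gcongr; exact h2.trans (min_le_right _ _)
      _ = ε := ENNReal.mul_div_cancel (by norm_num) (by norm_num))
  have h2 : ∀ n ∈ S, (n : ℝ≥0∞) ≤ supS S (fun n => psi (M n) (s n) (s (n + 1))) univ := by
    intro n hn
    refine le_trans ?_ (le_supS hn univ)
    refine le_iInf₂ fun p hp => ?_
    refine le_trans ?_ le_add_self
    rw [Nat.cast_le]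
    by_contra hlt
    obtain ⟨i, hi, E, hE, hEi⟩ := h.cover n (Finset.insertNone p.2)
      (fun o => Option.elim o p.1 id) (by rw [Finset.card_insertNone]; omega) (by
        intro x hx
        rcases hp.2.2 x (mem_univ x) hx with h3 | ⟨B, hB, hxB⟩
        · exact ⟨none, by simp, h3⟩
        · exact ⟨some B, by simpa using hB, hxB⟩)
    have hhalf : (1 / 2 : ℝ≥0∞) < 1 := by simp
    have h4 : phi (M n) (Option.elim i p.1 id) < 1 := by
      cases i with
      | none => exact hp.1.trans_lt hhalf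
      | some B => exact hp.2.1 B (by simpa using hi)
    obtain ⟨x, hx, hx2⟩ := phi_lt_one h4 hE (h.Ene hE)
    exact hx2 (hEi x hx)
  obtain ⟨m, hm⟩ := ENNReal.exists_nat_gt h1.ne
  obtain ⟨n, hnS, hn⟩ := hS.exists_gt m
  have h3 := (h2 n hnS).trans_lt hm
  rw [Nat.cast_lt] at h3
  omega

end

end Pool.Agent.H54.KN
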