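import Pool.Agent.H54.KN.Block

namespace Pool.Agent.H54.KN

open Set Filter Topology
open scoped ENNReal NNReal Classical

/-- Number of points of the finite set `E` in `A`. -/
noncomputable def cnt (E : Finset ℕ) (A : Set ℕ) : ℕ := (E.filter (· ∈ A)).card

theorem cnt_mono (E : Finset ℕ) {A B : Set ℕ} (h : A ⊆ B) : cnt E A ≤ cnt E B :=
  Finset.card_le_card fun x hx => by
    rw [Finset.mem_filter] at hx ⊢
    exact ⟨hx.1, h hx.2⟩

theorem cnt_union (E : Finset ℕ) (A B : Set ℕ) : cnt E (A ∪ B) ≤ cnt E A + cnt E B := by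
  unfold cnt
  refine (Finset.card_le_card ?_).trans (Finset.card_union_le _ _)
  intro x hx
  simp only [Finset.mem_filter, Finset.mem_union, mem_union] at hx ⊢
  tauto

theorem cnt_disj (E : Finset ℕ) {A B : Set ℕ} (h : Disjoint A B) :
    cnt E (A ∪ B) = cnt E A + cnt E B := by
  unfold cnt
  rw [← Finset.card_union_of_disjoint]
  · congr 1
    ext x
    simp only [Finset.mem_filter, Finset.mem_union, mem_union]
    tauto
  · rw [Finset.disjoint_left]
    intro x hx hx'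
    rw [Finset.mem_filter] at hx hx'
    exact disjoint_left.1 h hx.2 hx'.2

theorem cnt_le (E : Finset ℕ) (A : Set ℕ) : cnt E A ≤ E.card := Finset.card_filter_le _ _

theorem cnt_empty (E : Finset ℕ) : cnt E ∅ = 0 := by simp [cnt]

theorem cnt_loc (E : Finset ℕ) (A : Set ℕ) {a b : ℕ} (h : E ⊆ Finset.Ico a b) :
    cnt E A = cnt E (A ∩ Ico a b) := by
  unfold cnt
  congr 1
  ext x
  simp only [Finset.mem_filter, mem_inter_iff]
  constructor
  · rintro ⟨h1, h2⟩
    have := h h1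
    rw [Finset.mem_Ico] at this
    exact ⟨h1, h2, this⟩
  · rintro ⟨h1, h2, -⟩
    exact ⟨h1, h2⟩

theorem cnt_of_sub (E : Finset ℕ) {A : Set ℕ} (h : ∀ x ∈ E, x ∈ A) : cnt E A = E.card := by
  unfold cnt
  rw [Finset.filter_true_of_mem h]

/-- The normalised counting measure of `E`. -/
noncomputable def nu (E : Finset ℕ) (A : Set ℕ) : ℝ≥0 := (cnt E A : ℝ≥0) / (E.card : ℝ≥0)

theorem nu_disj (E : Finset ℕ) {A B : Set ℕ} (h : Disjoint A B) :
    nu E (A ∪ B) = nu E A + nu E B := by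
  unfold nu
  rw [cnt_disj E h]
  push_cast
  rw [add_div]

theorem nu_le_one (E : Finset ℕ) (A : Set ℕ) : nu E A ≤ 1 := by
  unfold nu
  exact div_le_one_of_le₀ (by exact_mod_cast cnt_le E A) zero_le

/-- The block submeasure given by the family `N` of finite sets. -/
noncomputable def phi (N : Finset (Finset ℕ)) (A : Set ℕ) : ℝ≥0∞ := ⨆ E ∈ N, (nu E A : ℝ≥0∞)

theorem le_phi {N : Finset (Finset ℕ)} {E : Finset ℕ} (h : E ∈ N) (A : Set ℕ) :
    (nu E A : ℝ≥0∞) ≤ phi N A := le_iSup₂ (f := fun E (_ : E ∈ N) => (nu E A : ℝ≥0∞)) E h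

theorem phi_le {N : Finset (Finset ℕ)} {A : Set ℕ} {c : ℝ≥0∞}
    (h : ∀ E ∈ N, (nu E A : ℝ≥0∞) ≤ c) : phi N A ≤ c := iSup₂_le h

theorem phi_le_one (N : Finset (Finset ℕ)) (A : Set ℕ) : phi N A ≤ 1 :=
  phi_le fun E _ => by exact_mod_cast nu_le_one E A

theorem phi_block {N : Finset (Finset ℕ)} {a b : ℕ} (h : ∀ E ∈ N, E ⊆ Finset.Ico a b) :
    BlockSub a b (phi N) := by
  refine ⟨?_, ?_, ?_, ?_, ?_⟩
  · refine le_antisymm (phi_le fun E _ => ?_) zero_le
    simp [nu, cnt_empty]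
  · intro A B hAB
    refine phi_le fun E hE => le_trans ?_ (le_phi hE B)
    rw [ENNReal.coe_le_coe]
    unfold nu
    gcongr
    exact cnt_mono E hAB
  · intro A B
    refine phi_le fun E hE => le_trans ?_ (add_le_add (le_phi hE A) (le_phi hE B))
    rw [← ENNReal.coe_add, ENNReal.coe_le_coe]
    unfold nu
    rw [← add_div]
    gcongr
    exact_mod_cast cnt_union E A B
  · intro x
    exact (phi_le_one N _).trans_lt ENNReal.one_lt_top
  · intro A
    unfold phi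
    refine iSup_congr fun E => iSup_congr fun hE => ?_
    unfold nu
    rw [cnt_loc E A (h E hE)]

theorem phi_lt_one {N : Finset (Finset ℕ)} {A : Set ℕ} (h : phi N A < 1) {E : Finset ℕ}
    (hE : E ∈ N) (hne : E.Nonempty) : ∃ x ∈ E, x ∉ A := by
  by_contra hcon
  push Not at hcon
  have h1 := le_phi hE A
  have h2 : nu E A = 1 := by
    unfold nu
    rw [cnt_of_sub E hcon]
    exact div_self (by exact_mod_cast (Finset.card_pos.2 hne).ne')
  rw [h2] at h1
  exact absurd (h1.trans_lt h) (by simp)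

/-- If every set of the family has at least `k * m` elements and `A` meets each in at most `m`
points, then `phi N A ≤ 1 / k`. -/
theorem phi_le_inv {N : Finset (Finset ℕ)} {A : Set ℕ} {k : ℕ} (hk : 0 < k)
    (h : ∀ E ∈ N, k * cnt E A ≤ E.card) : phi N A ≤ (k : ℝ≥0∞)⁻¹ := by
  refine phi_le fun E hE => ?_
  have hk' : (k : ℝ≥0) ≠ 0 := by exact_mod_cast hk.ne'
  have h1 : ((k : ℝ≥0∞)⁻¹) = (((k : ℝ≥0)⁻¹ : ℝ≥0) : ℝ≥0∞) := by
    rw [ENNReal.coe_inv hk']; simp
  rw [h1, ENNReal.coe_le_coe]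
  unfold nu
  rcases Nat.eq_zero_or_pos E.card with h0 | h0
  · rw [h0]; simp
  · rw [div_le_iff₀ (by exact_mod_cast h0), ← mul_le_mul_iff_right₀ (show (0 : ℝ≥0) < k by exact_mod_cast hk),
      ← mul_assoc, mul_inv_cancel₀ hk', one_mul]
    exact_mod_cast h E hE

section

variable {s q : ℕ → ℕ} {M : ℕ → Finset (Finset ℕ)}

/-- The submeasure `φ_S`. -/
noncomputable def phiS (M : ℕ → Finset (Finset ℕ)) (S : Set ℕ) : Set ℕ → ℝ≥0∞ :=
  supS S fun n => phi (M n)

/-- The ideal `I_S`. -/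
noncomputable def idl (M : ℕ → Finset (Finset ℕ)) (S : Set ℕ) : Set (Set ℕ) := Exh (phiS M S)

theorem IsSys.block (h : IsSys s q M) (n : ℕ) : BlockSub (s n) (s (n + 1)) (phi (M n)) :=
  phi_block (h.sub n)

theorem IsSys.Ene (h : IsSys s q M) {n : ℕ} {E : Finset ℕ} (hE : E ∈ M n) : E.Nonempty := by
  rw [← Finset.card_pos, h.card n E hE]; positivity

theorem IsSys.mem_idl (h : IsSys s q M) (S : Set ℕ) (A : Set ℕ) :
    A ∈ idl M S ↔ ∀ ε : ℝ≥0∞, 0 < ε → ∃ n₀, ∀ n ≥ n₀, n ∈ S → phi (M n) A ≤ ε :=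
  h.mem_exh S _ h.block A

theorem IsSys.nonpath (_h : IsSys s q M) (S : Set ℕ) : IsNonpathological (phiS M S) := by
  intro A
  constructor
  · rintro x ⟨ν, -, h2, rfl⟩
    exact h2 A
  · intro c hc
    refine supS_le fun n hn => phi_le fun E hE => hc ⟨nu E, fun B C hBC => nu_disj E hBC, ?_, rfl⟩
    intro B
    exact (le_phi hE B).trans (le_supS (ψ := fun n => phi (M n)) hn B)

theorem IsSys.nonpath_idl (h : IsSys s q M) (S : Set ℕ) : IsNonpathologicalIdeal (idl M S) :=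
  ⟨phiS M S, h.lsc S _ h.block, h.nonpath S, rfl⟩

theorem IsSys.isIdeal (h : IsSys s q M) (S : Set ℕ) (hS : S.Infinite) : IsIdeal (idl M S) := by
  refine ⟨?_, ?_, ?_, ?_⟩
  · intro A hA
    rw [h.mem_idl]
    intro ε _
    obtain ⟨m, hm⟩ := hA.bddAbove
    refine ⟨m + 1, fun n hn _ => ?_⟩
    have h1 : A ∩ Ico (s n) (s (n + 1)) = ∅ := by
      ext x
      simp only [mem_inter_iff, mem_Ico, mem_empty_iff_false, iff_false, not_and]
      intro hx h2
      have h3 := hm hx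
      have h4 : m + 1 ≤ s n := hn.trans h.smono.le_apply
      omega
    rw [(h.block n).loc, h1, (h.block n).empty]
    exact zero_le
  · intro A B hAB hB
    rw [h.mem_idl] at hB ⊢
    intro ε hε
    obtain ⟨n₀, hn₀⟩ := hB ε hε
    exact ⟨n₀, fun n hn hnS => ((h.block n).mono _ _ hAB).trans (hn₀ n hn hnS)⟩
  · intro A B hA hB
    rw [h.mem_idl] at hA hB ⊢
    intro ε hε
    obtain ⟨n₀, hn₀⟩ := hA (ε / 2) (ENNReal.half_pos hε.ne')
    obtain ⟨n₁, hn₁⟩ := hB (ε / 2) (ENNReal.half_pos hε.ne')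
    refine ⟨max n₀ n₁, fun n hn hnS => ?_⟩
    refine ((h.block n).subadd A B).trans ?_
    calc phi (M n) A + phi (M n) B ≤ ε / 2 + ε / 2 :=
          add_le_add (hn₀ n (le_of_max_le_left hn) hnS) (hn₁ n (le_of_max_le_right hn) hnS)
      _ = ε := ENNReal.add_halves ε
  · intro hu
    rw [h.mem_idl] at hu
    obtain ⟨n₀, hn₀⟩ := hu (1 / 2) (by simp)
    obtain ⟨n, hnS, hn⟩ := hS.exists_gt n₀
    obtain ⟨E, hE⟩ := h.ne n
    obtain ⟨x, -, hx⟩ := phi_lt_one ((hn₀ n hn.le hnS).trans_lt (by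
      simp)) hE (h.Ene hE)
    exact hx (mem_univ x)

end

end Pool.Agent.H54.KN
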